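import Pool.Agent.Helper36.TC.Defs

/-! # TC FunEq: the functional equation -/

set_option autoImplicit false
set_option linter.unusedSectionVars false

open MeasureTheory Set Metric Module
open scoped Topology

namespace TC

theorem fun_eq {G12 G23 G13 : ℝ → ℝ}
    (hmul : ∀ s t : ℝ, s ≠ 0 → t ≠ 0 → G12 s * G23 t = G13 (s * t))
    (hpos : ∀ s : ℝ, 0 < s → 0 < G12 s) (hneg : ∀ s : ℝ, s < 0 → G12 s < 0) (h23 : G23 1 ≠ 0)
    (hmono : ∀ s t : ℝ, 0 < s → s ≤ t → G12 s ≤ G12 t)
    (hinv : ∀ s : ℝ, s ≠ 0 → G12 (-(1 / G12 s)) = -(1 / s)) :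
    ∃ α : ℝ, 0 < α ∧ ∀ s : ℝ, s ≠ 0 → G12 s = α * s := by
  have hα := hpos 1 one_pos
  set α := G12 1 with hαdef
  refine ⟨α, hα, ?_⟩
  have hA : ∀ s : ℝ, s ≠ 0 → G12 s * G23 1 = G13 s := by
    intro s hs
    have := hmul s 1 hs one_ne_zero
    rwa [mul_one] at this
  have hB : ∀ t : ℝ, t ≠ 0 → α * G23 t = G13 t := by
    intro t ht
    have := hmul 1 t one_ne_zero ht
    rwa [one_mul] at this
  have hm : ∀ s t : ℝ, s ≠ 0 → t ≠ 0 → G12 s * G12 t = α * G12 (s * t) := by
    intro s t hs ht
    have h1 := hmul s t hs ht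
    rw [← hA (s * t) (mul_ne_zero hs ht)] at h1
    have h2 : α * G23 t = G12 t * G23 1 := by rw [hB t ht, hA t ht]
    have h3 : G12 s * G12 t * G23 1 = α * G12 (s * t) * G23 1 := by
      calc G12 s * G12 t * G23 1 = G12 s * (G12 t * G23 1) := by ring
        _ = G12 s * (α * G23 t) := by rw [h2]
        _ = α * (G12 s * G23 t) := by ring
        _ = α * (G12 (s * t) * G23 1) := by rw [h1]
        _ = α * G12 (s * t) * G23 1 := by ring
    exact mul_right_cancel₀ h23 h3
  have hm1 : G12 (-1) = -α := by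
    have h1 := hm (-1) (-1) (by norm_num) (by norm_num)
    have h2 : (-1 : ℝ) * -1 = 1 := by norm_num
    rw [h2, ← hαdef] at h1
    have h3 := hneg (-1) (by norm_num)
    have h4 : (G12 (-1) - α) * (G12 (-1) + α) = 0 := by linear_combination h1
    rcases mul_eq_zero.mp h4 with h5 | h5
    · linarith
    · linarith
  have hodd : ∀ s : ℝ, s ≠ 0 → G12 (-s) = -G12 s := by
    intro s hs
    have h1 := hm (-1) s (by norm_num) hs
    rw [hm1, neg_one_mul] at h1
    have h2 : α * (G12 (-s) + G12 s) = 0 := by linear_combination -h1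
    rcases mul_eq_zero.mp h2 with h3 | h3
    · exact absurd h3 hα.ne'
    · linarith
  have hGG : ∀ s : ℝ, 0 < s → G12 (G12 s) = α ^ 2 * s := by
    intro s hs
    have hGs := hpos s hs
    have h1 := hinv s hs.ne'
    rw [hodd (1 / G12 s) (one_div_pos.mpr hGs).ne'] at h1
    have h2 := hm (1 / G12 s) (G12 s) (one_div_pos.mpr hGs).ne' hGs.ne'
    rw [one_div_mul_cancel hGs.ne', ← hαdef] at h2
    have h3 : G12 (1 / G12 s) = 1 / s := by linarith
    rw [h3] at h2
    have h4 : s * (1 / s * G12 (G12 s)) = s * (α * α) := by rw [h2]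
    have h5 : s * (1 / s * G12 (G12 s)) = G12 (G12 s) := by
      field_simp
    rw [h5] at h4
    rw [h4]
    ring
  have hGα : G12 α = α ^ 2 := by
    have := hGG 1 one_pos
    rw [← hαdef, mul_one] at this
    exact this
  have hinvol : ∀ s : ℝ, 0 < s → G12 (G12 s / α) = α * s := by
    intro s hs
    have hGs := hpos s hs
    have hd : 0 < G12 s / α := div_pos hGs hα
    have h1 := hm (G12 s / α) α hd.ne' hα.ne'
    rw [div_mul_cancel₀ _ hα.ne', hGG s hs, hGα] at h1
    have h2 : α ^ 2 * (G12 (G12 s / α) - α * s) = 0 := by linear_combination h1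
    rcases mul_eq_zero.mp h2 with h3 | h3
    · exact absurd h3 (by positivity)
    · linarith
  have hposcase : ∀ s : ℝ, 0 < s → G12 s = α * s := by
    intro s hs
    have hGs := hpos s hs
    have hd : 0 < G12 s / α := div_pos hGs hα
    rcases lt_trichotomy (G12 s / α) s with h | h | h
    · have h1 := hmono _ _ hd h.le
      rw [hinvol s hs] at h1
      rw [div_lt_iff₀ hα] at h
      linarith
    · rw [div_eq_iff hα.ne'] at h
      linarith
    · have h1 := hmono _ _ hs h.le
      rw [hinvol s hs] at h1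
      rw [lt_div_iff₀ hα] at h
      linarith
  intro s hs
  rcases lt_or_gt_of_ne hs with h | h
  · have h1 := hodd (-s) (neg_ne_zero.mpr hs)
    rw [neg_neg] at h1
    rw [h1, hposcase (-s) (by linarith)]
    ring
  · exact hposcase s h

end TC
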