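import Pool.Agent.Helper36.TC.Defs

/-! # TC Ode: the differential equation -/

set_option autoImplicit false
set_option linter.unusedSectionVars false

open MeasureTheory Set Metric Module
open scoped Topology

namespace TC

theorem ode_low {φ : ℝ → ℝ} {α : ℝ} (hα : 0 < α) (hpos : ∀ s : ℝ, 0 < φ s)
    (hsub : ∀ s t : ℝ, φ s * (1 + α * s * t) ≤ φ t * (1 + α * s ^ 2)) {s t : ℝ}
    (hst : 0 ≤ 1 + α * s * t) :
    φ s ^ 2 / (1 + α * s ^ 2) - φ s ^ 2 / (1 + α * s ^ 2) * (α * (s - t) ^ 2) ≤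
      φ t ^ 2 / (1 + α * t ^ 2) := by
  have hs : 0 < 1 + α * s ^ 2 := by positivity
  have ht : 0 < 1 + α * t ^ 2 := by positivity
  have ht1 : 1 ≤ 1 + α * t ^ 2 := by
    have : 0 ≤ α * t ^ 2 := by positivity
    linarith
  have hs1 : 1 ≤ 1 + α * s ^ 2 := by
    have : 0 ≤ α * s ^ 2 := by positivity
    linarith
  have h1 : (φ s * (1 + α * s * t)) ^ 2 ≤ (φ t * (1 + α * s ^ 2)) ^ 2 :=
    pow_le_pow_left₀ (mul_nonneg (hpos s).le hst) (hsub s t) 2
  rw [le_div_iff₀ ht]
  have e1 : (φ s ^ 2 / (1 + α * s ^ 2) - φ s ^ 2 / (1 + α * s ^ 2) * (α * (s - t) ^ 2)) *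
      (1 + α * t ^ 2) = φ s ^ 2 * ((1 - α * (s - t) ^ 2) * (1 + α * t ^ 2)) / (1 + α * s ^ 2) := by
    ring
  rw [e1, div_le_iff₀ hs]
  -- compare with the square inequality
  have h2 : (1 - α * (s - t) ^ 2) * (1 + α * t ^ 2) * (1 + α * s ^ 2) ≤ (1 + α * s * t) ^ 2 := by
    have h3 : (1 + α * s ^ 2) * (1 + α * t ^ 2) = (1 + α * s * t) ^ 2 + α * (s - t) ^ 2 := by ring
    have h4 : 1 ≤ (1 + α * s ^ 2) * (1 + α * t ^ 2) := by nlinarith
    have h5 : 0 ≤ α * (s - t) ^ 2 := by positivity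
    nlinarith [mul_le_mul_of_nonneg_left h4 h5]
  have h6 : φ s ^ 2 * ((1 - α * (s - t) ^ 2) * (1 + α * t ^ 2)) * (1 + α * s ^ 2) ≤
      φ s ^ 2 * (1 + α * s * t) ^ 2 := by
    have := mul_le_mul_of_nonneg_left h2 (sq_nonneg (φ s))
    nlinarith
  have h7 : φ s ^ 2 * (1 + α * s * t) ^ 2 ≤ φ t ^ 2 * (1 + α * s ^ 2) * (1 + α * s ^ 2) := by
    nlinarith
  have h8 := h6.trans h7
  exact le_of_mul_le_mul_right h8 hs

theorem ode {φ : ℝ → ℝ} {α : ℝ} (hα : 0 < α) (hpos : ∀ s : ℝ, 0 < φ s) (h0 : φ 0 = 1)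
    (hsub : ∀ s t : ℝ, φ s * (1 + α * s * t) ≤ φ t * (1 + α * s ^ 2))
    (hup : ∀ s : ℝ, φ s ≤ |s| + 1) (hlow : ∀ s : ℝ, |s| - 1 ≤ φ s) :
    ∀ s : ℝ, φ s ^ 2 = 1 + s ^ 2 := by
  set R : ℝ → ℝ := fun s => φ s ^ 2 / (1 + α * s ^ 2) with hR
  have hRle : ∀ s, R s ≤ (|s| + 1) ^ 2 := by
    intro s
    have h1 : φ s ^ 2 ≤ (|s| + 1) ^ 2 := pow_le_pow_left₀ (hpos s).le (hup s) 2
    have h2 : (1 : ℝ) ≤ 1 + α * s ^ 2 := by
      have : 0 ≤ α * s ^ 2 := by positivity
      linarith
    have h3 : φ s ^ 2 / (1 + α * s ^ 2) ≤ φ s ^ 2 := div_le_self (sq_nonneg _) h2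
    exact h3.trans h1
  have hRnn : ∀ s, 0 ≤ R s := fun s => by
    have : 0 < 1 + α * s ^ 2 := by positivity
    show 0 ≤ φ s ^ 2 / (1 + α * s ^ 2)
    positivity
  have hder : ∀ s : ℝ, HasDerivAt R 0 s := by
    intro s
    have hO : (fun t => R t - R s) =O[𝓝 s] fun t => ‖t - s‖ ^ 2 := by
      apply Asymptotics.IsBigO.of_bound (α * (|s| + 2) ^ 2)
      have hd : 0 < min 1 (1 / (α * (|s| + 1))) := by
        apply lt_min one_pos
        have := abs_nonneg s
        positivity
      filter_upwards [Metric.ball_mem_nhds s hd] with t ht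
      rw [Metric.mem_ball, Real.dist_eq] at ht
      have ht1 : |t - s| < 1 := ht.trans_le (min_le_left _ _)
      have ht2 : |t - s| < 1 / (α * (|s| + 1)) := ht.trans_le (min_le_right _ _)
      have hpos' : 0 < α * (|s| + 1) := by
        have := abs_nonneg s
        positivity
      rw [lt_div_iff₀ hpos'] at ht2
      have hst : 0 ≤ 1 + α * s * t := by
        have h1 : s * t = s ^ 2 + s * (t - s) := by ring
        have h2 : |s * (t - s)| ≤ (|s| + 1) * |t - s| := by
          rw [abs_mul]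
          apply mul_le_mul_of_nonneg_right _ (abs_nonneg _)
          linarith
        have h3 := neg_abs_le (s * (t - s))
        have h4 : α * (s * (t - s)) ≥ -1 := by
          have : α * (s * (t - s)) ≥ α * (-((|s| + 1) * |t - s|)) :=
            mul_le_mul_of_nonneg_left (by linarith) hα.le
          nlinarith
        have h5 : 0 ≤ α * s ^ 2 := by positivity
        have h6 : 1 + α * s * t = 1 + α * s ^ 2 + α * (s * (t - s)) := by ring
        rw [h6]
        linarith
      have hts : 0 ≤ 1 + α * t * s := by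
        have : α * t * s = α * s * t := by ring
        rw [this]
        exact hst
      have k1 := ode_low hα hpos hsub hst
      have k2 := ode_low hα hpos hsub hts
      have hRs : R s ≤ (|s| + 2) ^ 2 := by
        refine (hRle s).trans ?_
        apply pow_le_pow_left₀ (by positivity)
        linarith
      have hRt : R t ≤ (|s| + 2) ^ 2 := by
        refine (hRle t).trans ?_
        apply pow_le_pow_left₀ (by positivity)
        have : |t| ≤ |t - s| + |s| := by
          have := abs_add_le (t - s) s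
          simpa using this
        linarith
      rw [Real.norm_eq_abs, Real.norm_eq_abs, abs_le]
      have hq : ‖t - s‖ ^ 2 = (t - s) ^ 2 := by
        rw [Real.norm_eq_abs, sq_abs]
      rw [abs_of_nonneg (show 0 ≤ ‖t - s‖ ^ 2 by positivity), hq]
      have hsq : 0 ≤ α * (t - s) ^ 2 := by positivity
      have m1 := mul_le_mul_of_nonneg_right hRs hsq
      have m2 := mul_le_mul_of_nonneg_right hRt hsq
      have k1' : R s - R s * (α * (s - t) ^ 2) ≤ R t := k1
      have k2' : R t - R t * (α * (t - s) ^ 2) ≤ R s := k2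
      have e : (s - t) ^ 2 = (t - s) ^ 2 := by ring
      rw [e] at k1'
      constructor
      · nlinarith
      · nlinarith
    have h1 : HasFDerivAt (fun t => R t - R s) (0 : ℝ →L[ℝ] ℝ) s := hO.hasFDerivAt (by norm_num)
    have h2 : HasFDerivAt R (0 : ℝ →L[ℝ] ℝ) s := by
      have := h1.add_const (R s)
      simpa using this
    have h3 := h2.hasDerivAt
    simpa using h3
  have hconst : ∀ s, R s = 1 := by
    intro s
    have h1 := is_const_of_deriv_eq_zero (fun x => (hder x).differentiableAt)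
      (fun x => (hder x).deriv) s 0
    rw [h1]
    show φ 0 ^ 2 / (1 + α * 0 ^ 2) = 1
    rw [h0]
    norm_num
  have hφ : ∀ s, φ s ^ 2 = 1 + α * s ^ 2 := by
    intro s
    have h1 : φ s ^ 2 / (1 + α * s ^ 2) = 1 := hconst s
    have h2 : 0 < 1 + α * s ^ 2 := by positivity
    rwa [div_eq_one_iff_eq h2.ne'] at h1
  have hα1 : α = 1 := by
    rcases lt_trichotomy α 1 with h | h | h
    · exfalso
      have hd : 0 < 1 - α := by linarith
      set s : ℝ := 3 / (1 - α) with hs
      have hs3 : 3 < s := by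
        rw [hs, lt_div_iff₀ hd]
        linarith
      have hmul : s * (1 - α) = 3 := by
        rw [hs]
        field_simp
      have h1 := hlow s
      rw [abs_of_pos (by linarith)] at h1
      have h2 : (s - 1) ^ 2 ≤ φ s ^ 2 := pow_le_pow_left₀ (by linarith) h1 2
      rw [hφ s] at h2
      nlinarith
    · exact h
    · exfalso
      have hd : 0 < α - 1 := by linarith
      set s : ℝ := 3 / (α - 1) with hs
      have hs0 : 0 < s := by positivity
      have hmul : s * (α - 1) = 3 := by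
        rw [hs]
        field_simp
      have h1 := hup s
      rw [abs_of_pos hs0] at h1
      have h2 : φ s ^ 2 ≤ (s + 1) ^ 2 := pow_le_pow_left₀ (hpos s).le h1 2
      rw [hφ s] at h2
      nlinarith
  intro s
  rw [hφ s, hα1, one_mul]

end TC
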