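import Pool.Agent.Helper36.TC.Defs

/-! # TC Layer: layer cake formula for the tent over a segment -/

set_option autoImplicit false
set_option linter.unusedSectionVars false

open MeasureTheory Set Metric Module
open scoped Topology Pointwise

namespace TC

variable {V : Type*} [NormedAddCommGroup V] [NormedSpace ℝ V] [FiniteDimensional ℝ V]
  [MeasurableSpace V] [BorelSpace V]

theorem layer_mem {S : Set V} (hS : S.Nonempty) {δ : ℝ} (hδ : 0 ≤ δ) (y : V) :
    y ∈ cthickening δ S ↔ infDist y S ≤ δ := by
  rw [mem_cthickening_iff, ENNReal.le_ofReal_iff_toReal_le (infEDist_ne_top hS) hδ]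
  rfl

theorem layer_smul_segment (c : ℝ) (x : V) : c • segment ℝ (0 : V) x = segment ℝ 0 (c • x) := by
  have h := image_segment ℝ ((c • LinearMap.id : V →ₗ[ℝ] V).toAffineMap) 0 x
  simp only [LinearMap.coe_toAffineMap, LinearMap.smul_apply, LinearMap.id_coe, id_eq,
    smul_zero] at h
  rw [← h]
  rfl

theorem layer_scale (μ : Measure V) [μ.IsAddHaarMeasure] {r : ℝ} (hr : 0 < r) (x : V) :
    μ.real (cthickening r (segment ℝ 0 x)) =
      r ^ finrank ℝ V * μ.real (cthickening 1 (segment ℝ 0 (r⁻¹ • x))) := by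
  have hset : cthickening r (segment ℝ (0 : V) x) =
      r • cthickening 1 (segment ℝ 0 (r⁻¹ • x)) := by
    ext y
    rw [Set.mem_smul_set_iff_inv_smul_mem₀ hr.ne', layer_mem ⟨0, left_mem_segment ℝ _ _⟩ hr.le,
      layer_mem ⟨0, left_mem_segment ℝ _ _⟩ zero_le_one, ← layer_smul_segment,
      infDist_smul₀ (inv_ne_zero hr.ne'), norm_inv, Real.norm_of_nonneg hr.le, inv_mul_le_iff₀ hr,
      mul_one]
  rw [hset, measureReal_def, Measure.addHaar_smul, ENNReal.toReal_mul,
    ENNReal.toReal_ofReal (abs_nonneg _), abs_of_nonneg (by positivity), measureReal_def]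

theorem layer (μ : Measure V) [μ.IsAddHaarMeasure] [Nontrivial V] {k : ℝ}
    (hk : ∀ x : V, μ.real (cthickening 1 (segment ℝ 0 x)) = μ.real (closedBall (0:V) 1) + k * ‖x‖)
    (x : V) :
    ∫ y, max 0 (1 - infDist y (segment ℝ 0 x)) ∂μ =
      μ.real (closedBall (0:V) 1) / (finrank ℝ V + 1) + k / finrank ℝ V * ‖x‖ := by
  set S : Set V := segment ℝ (0 : V) x with hS
  have hSne : S.Nonempty := ⟨0, left_mem_segment ℝ _ _⟩
  have hScomp : IsCompact S := by
    rw [hS, segment_eq_image_lineMap]
    exact isCompact_Icc.image (AffineMap.lineMap_continuous)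
  have hn : 0 < finrank ℝ V := finrank_pos
  obtain ⟨m, hm⟩ : ∃ m, finrank ℝ V = m + 1 := ⟨finrank ℝ V - 1, by omega⟩
  set v := μ.real (closedBall (0:V) 1) with hv
  have hcont : Continuous (fun y : V => max 0 (1 - infDist y S)) := by
    exact continuous_const.max (continuous_const.sub (continuous_infDist_pt S))
  have hsupp : HasCompactSupport (fun y : V => max 0 (1 - infDist y S)) := by
    apply HasCompactSupport.intro (hScomp.cthickening (r := 1))
    intro y hy
    rw [layer_mem hSne zero_le_one, not_le] at hy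
    exact max_eq_left (by linarith)
  have hint : Integrable (fun y : V => max 0 (1 - infDist y S)) μ :=
    hcont.integrable_of_hasCompactSupport hsupp
  have hnn : 0 ≤ᵐ[μ] (fun y : V => max 0 (1 - infDist y S)) :=
    Filter.Eventually.of_forall (fun y => le_max_left _ _)
  have hbd : (fun y : V => max 0 (1 - infDist y S)) ≤ᵐ[μ] (fun _ => (1 : ℝ)) :=
    Filter.Eventually.of_forall (fun y => by
      apply max_le zero_le_one
      have := infDist_nonneg (x := y) (s := S)
      show 1 - infDist y S ≤ 1
      linarith)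
  rw [hint.integral_eq_integral_Ioc_meas_le hnn hbd]
  have hlevel : ∀ t ∈ Ioo (0 : ℝ) 1, μ.real {a : V | t ≤ max 0 (1 - infDist a S)} =
      (1 - t) ^ (m + 1) * v + k * (1 - t) ^ m * ‖x‖ := by
    intro t ht
    have hr : 0 < 1 - t := by linarith [ht.2]
    have hset : {a : V | t ≤ max 0 (1 - infDist a S)} = cthickening (1 - t) S := by
      ext a
      rw [layer_mem hSne hr.le, Set.mem_ofPred_eq, le_max_iff]
      constructor
      · rintro (h | h)
        · linarith [ht.1]
        · linarith
      · intro h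
        right
        linarith
    rw [hset, hS, layer_scale μ hr, hk, hm, norm_smul, norm_inv, Real.norm_of_nonneg hr.le,
      pow_succ]
    field_simp
  have hcongr : ∫ t in Ioc (0 : ℝ) 1, μ.real {a : V | t ≤ max 0 (1 - infDist a S)} =
      ∫ t in (0 : ℝ)..1, ((1 - t) ^ (m + 1) * v + k * (1 - t) ^ m * ‖x‖) := by
    rw [intervalIntegral.integral_of_le zero_le_one, integral_Ioc_eq_integral_Ioo,
      integral_Ioc_eq_integral_Ioo]
    exact setIntegral_congr_fun measurableSet_Ioo hlevel
  rw [hcongr]
  rw [intervalIntegral.integral_comp_sub_left (fun u => u ^ (m + 1) * v + k * u ^ m * ‖x‖) 1]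
  rw [sub_self, sub_zero, intervalIntegral.integral_add
    (Continuous.intervalIntegrable (by fun_prop) _ _)
    (Continuous.intervalIntegrable (by fun_prop) _ _)]
  have e1 : ∫ u in (0 : ℝ)..1, u ^ (m + 1) * v = v / ((m : ℝ) + 1 + 1) := by
    rw [intervalIntegral.integral_mul_const, integral_pow]
    push_cast
    simp
    ring
  have e2 : ∫ u in (0 : ℝ)..1, k * u ^ m * ‖x‖ = k / ((m : ℝ) + 1) * ‖x‖ := by
    have : (fun u : ℝ => k * u ^ m * ‖x‖) = fun u : ℝ => u ^ m * (k * ‖x‖) := by
      funext u
      ring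
    rw [this, intervalIntegral.integral_mul_const, integral_pow]
    simp
    ring
  rw [e1, e2, hm]
  push_cast
  ring

end TC
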